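import Pool.Agent.Lib.MP_c01941_lc.Final

/-! No algorithm computes minimum partitions of polygons into pieces of bounded aspect ratio
within the time bounds of Q1. Hard instances, with `α = 67600`: polygons `P_n` with `19 n + 4`
vertices, input length `O(n^2)` and `m_α(P_n) = 3 n`, such that every partition into `3 n` pieces
has a vertex whose abscissa has degree at least `2^(n-1)` over `ℚ` and is not a root of a
polynomial with few terms, so that every right output has exponential length. -/

namespace Pool.Agent.Results.MP_c01941_lc.NoAlgorithm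

open MPc01941

theorem result :
    (∃ C : ℕ, ∀ n : ℕ, 1 ≤ n → ∃ (v : List (ℚ × ℚ)) (P : Set ℂ),
      v.length = 19 * n + 4 ∧ IsPolygon (v.map toC) P ∧ NoStraight (v.map toC) ∧
      (encIn v 67600).length ≤ C * (n + 1) ^ 2 ∧ MinPieces 67600 P (3 * n) ∧
      (∀ W, IsBoundedPartition 67600 P W → W.length = 3 * n →
        ∃ w ∈ W, ∃ z ∈ w, ∀ p : Polynomial ℚ, p ≠ 0 → Polynomial.aeval z.re p = 0 →
          2 ^ (n - 1) ≤ p.natDegree ∧ 2 ^ ((n - 1) / 2) < 2 * p.support.card) ∧
      ∀ O : Output, OutputCorrect 67600 P O → 2 ^ ((n - 1) / 2) < 2 * (encOut O).length) ∧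
    ¬ ∃ (M : Turing.TM2ComputableAux Sym Sym) (f : Polynomial ℕ), Solves M f :=
  ⟨hard_instances, no_algorithm⟩

end Pool.Agent.Results.MP_c01941_lc.NoAlgorithm
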